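import Pool.Agent.H585R4.JT.Stmts

set_option autoImplicit false
open Filter Topology Finset
open scoped ENNReal ComplexConjugate

namespace Pool.Agent.H973R3.JT

open Pool.Agent.H585R4.JT

theorem length_bn (γ : ℕ → Bool) (n : ℕ) : (bn γ n).length = n := by
  induction n with
  | zero => rfl
  | succ n ih => simp [bn, ih]

theorem bn_mono (γ : ℕ → Bool) {m n : ℕ} (h : m ≤ n) : bn γ m <:+ bn γ n := by
  induction n, h using Nat.le_induction with
  | base => exact List.suffix_refl _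
  | succ n _ ih => exact ih.trans (List.suffix_cons _ _)

variable {𝕜 : Type} [RCLike 𝕜]

/-- one block -/
theorem block (f : V 𝕜 →L[𝕜] 𝕜) (γ : ℕ → Bool) (g : ℝ) (hg : 0 < g)
    (H1 : ∀ ε > 0, ∀ N : ℕ, ∃ n, N ≤ n ∧ ‖f (ee (bn γ n))‖ ≤ ε)
    (H2 : ∀ n, ∃ x : V 𝕜, g * ‖x‖ < ‖f (RR (bn γ n) x)‖) (n : ℕ) :
    ∃ (N' : ℕ) (x : V 𝕜), n < N' ∧ ‖x‖ ≤ 2 ∧
      (∀ t, ev t x ≠ 0 → bn γ n <:+ t ∧ ¬ bn γ N' <:+ t) ∧ g / 2 ≤ RCLike.re (f x) := by
  obtain ⟨x, hx⟩ := H2 n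
  set s := bn γ n with hs
  set z := RR s x with hz
  set w := f z with hw
  have hw0 : 0 < ‖w‖ := lt_of_le_of_lt (by positivity) hx
  have hx0 : 0 < ‖x‖ := by
    rw [norm_pos_iff]
    rintro rfl
    rw [hw, hz, map_zero, map_zero, norm_zero] at hw0
    exact lt_irrefl _ hw0
  set θ : 𝕜 := conj w * ((‖w‖ * ‖x‖)⁻¹ : ℝ) with hθ
  set y := θ • z with hy
  have hθn : ‖θ‖ = ‖x‖⁻¹ := by
    rw [hθ, norm_mul, RCLike.norm_conj, RCLike.norm_ofReal, abs_of_pos (by positivity)]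
    field_simp
  have hyn : ‖y‖ ≤ 1 := by
    rw [hy, norm_smul, hθn]
    have h1 : ‖z‖ ≤ ‖x‖ := RR_le s x
    rw [inv_mul_le_iff₀ hx0]
    linarith
  have hfy : f y = ((‖w‖ / ‖x‖ : ℝ) : 𝕜) := by
    rw [hy, map_smul, smul_eq_mul, ← hw, hθ]
    have h1 : conj w * ((‖w‖ * ‖x‖)⁻¹ : ℝ) * w = (conj w * w) * (((‖w‖ * ‖x‖)⁻¹ : ℝ) : 𝕜) := by ring
    rw [h1, RCLike.conj_mul, ← RCLike.ofReal_pow, ← RCLike.ofReal_mul]
    congr 1
    field_simp
  have hre : g ≤ RCLike.re (f y) := by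
    rw [hfy, RCLike.ofReal_re, le_div_iff₀ hx0]
    exact hx.le
  set ε : ℝ := g / (4 * (‖f‖ + 1)) with hε
  have hf1 : 0 < ‖f‖ + 1 := by positivity
  have hε0 : 0 < ε := by positivity
  obtain ⟨N1, hN1⟩ := tendsto_QQ y hε0
  set N := max N1 (n + 1) with hN
  have hQ : ‖QQ N y‖ ≤ ε := hN1 N (le_max_left _ _)
  obtain ⟨N', hN', hfe⟩ := H1 (g / 4) (by positivity) (N + 1)
  set y' := PP N y with hy'
  have hy'n : ‖y'‖ ≤ 1 := (PP_le N y).trans hyn
  set c0 := ev (bn γ N) y' with hc0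
  have hc0n : ‖c0‖ ≤ 1 := (ev_le y' _).trans hy'n
  have hnN : n + 1 ≤ N := le_max_right _ _
  have htrN : tr N (bn γ N) = bn γ N := tr_of_le (by rw [length_bn])
  refine ⟨N', y' - c0 • ee (bn γ N'), by omega, ?_, ?_, ?_⟩
  · refine (norm_sub_le _ _).trans ?_
    rw [norm_smul]
    have h1 : ‖(ee (bn γ N') : V 𝕜)‖ ≤ 1 := ee_le _
    have h2 : ‖c0‖ * ‖(ee (bn γ N') : V 𝕜)‖ ≤ 1 * 1 :=
      mul_le_mul hc0n h1 (norm_nonneg _) zero_le_one
    linarith
  · intro t ht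
    have hne : bn γ N' ≠ [] := by
      intro h
      have := length_bn γ N'
      rw [h] at this
      simp at this
      omega
    have hev : ev t (y' - c0 • ee (bn γ N')) =
        ev (tr N t) y - c0 * (if bn γ N' <:+ t ∧ bn γ N' ≠ [] then 1 else 0) := by
      rw [map_sub, map_smul, smul_eq_mul, ev_ee, hy', ev_PP]
    rw [hev] at ht
    by_cases hcone : bn γ N' <:+ t
    · exfalso
      apply ht
      rw [if_pos ⟨hcone, hne⟩, mul_one]
      have h1 : tr N t = bn γ N := by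
        apply eq_of_suffix_length (tr_suffix N t) ((bn_mono γ (by omega)).trans hcone)
        have h2 := hcone.length_le
        rw [length_bn] at h2
        rw [length_tr, length_bn]
        omega
      rw [h1, hc0, hy', ev_PP, htrN, sub_self]
    · refine ⟨?_, hcone⟩
      rw [if_neg (fun h => hcone h.1), mul_zero, sub_zero, hy, map_smul, hz, ev_RR] at ht
      by_contra hcon
      apply ht
      rw [if_neg (fun h => hcon (h.trans (tr_suffix N t))), smul_zero]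
  · have h1 : f y' = f y - f (QQ N y) := by
      rw [← map_sub, eq_comm]
      congr 1
      rw [sub_eq_iff_eq_add]
      exact (PP_add_QQ N y).symm
    rw [map_sub, map_smul, h1, map_sub, map_sub]
    have h2 : RCLike.re (f (QQ N y)) ≤ g / 4 := by
      refine (RCLike.re_le_norm _).trans ((f.le_opNorm _).trans ?_)
      calc ‖f‖ * ‖QQ N y‖ ≤ (‖f‖ + 1) * ε := by
            apply mul_le_mul (by linarith) hQ (norm_nonneg _) hf1.le
        _ = g / 4 := by rw [hε]; field_simp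
    have h3 : RCLike.re (c0 • f (ee (bn γ N'))) ≤ g / 4 := by
      refine (RCLike.re_le_norm _).trans ?_
      rw [norm_smul]
      calc ‖c0‖ * ‖f (ee (bn γ N'))‖ ≤ 1 * (g / 4) :=
            mul_le_mul hc0n hfe (norm_nonneg _) zero_le_one
        _ = g / 4 := one_mul _
    linarith

/-- sums of blocks -/
theorem norm_sum_blocks (x : ℕ → V 𝕜) (hd : ∀ k l, k ≠ l → ∀ t, ¬ (ev t (x k) ≠ 0 ∧ ev t (x l) ≠ 0))
    (K : ℕ) {C : ℝ} (hC : ∀ k, ‖x k‖ ≤ C) (hC0 : 0 ≤ C) :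
    ‖∑ k ∈ Finset.range K, x k‖ ≤ Real.sqrt (2 * K * C ^ 2) := by
  classical
  apply norm_le (Real.sqrt_nonneg _)
  intro F hF
  rw [Real.sq_sqrt (by positivity)]
  have h1 : ∀ p ∈ F, ‖ev p.2 (∑ k ∈ Finset.range K, x k) - ev p.1 (∑ k ∈ Finset.range K, x k)‖ ^ 2 ≤
      2 * ∑ k ∈ Finset.range K, ‖ev p.2 (x k) - ev p.1 (x k)‖ ^ 2 := by
    intro p _
    set A := (Finset.range K).filter (fun k => ev p.1 (x k) ≠ 0) with hA
    set B := (Finset.range K).filter (fun k => ev p.2 (x k) ≠ 0) with hB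
    have hAc : A.card ≤ 1 := by
      rw [Finset.card_le_one]
      intro a ha b hb
      by_contra hne
      exact hd a b hne p.1 ⟨(Finset.mem_filter.1 ha).2, (Finset.mem_filter.1 hb).2⟩
    have hBc : B.card ≤ 1 := by
      rw [Finset.card_le_one]
      intro a ha b hb
      by_contra hne
      exact hd a b hne p.2 ⟨(Finset.mem_filter.1 ha).2, (Finset.mem_filter.1 hb).2⟩
    have hABc : (A ∪ B).card ≤ 2 := (Finset.card_union_le _ _).trans (by omega)
    have hsub : A ∪ B ⊆ Finset.range K :=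
      Finset.union_subset (Finset.filter_subset _ _) (Finset.filter_subset _ _)
    have hzero : ∀ k ∈ Finset.range K, k ∉ A ∪ B → ev p.2 (x k) - ev p.1 (x k) = 0 := by
      intro k hk hnk
      rw [Finset.mem_union, not_or, hA, hB, Finset.mem_filter, Finset.mem_filter] at hnk
      have ha : ev p.1 (x k) = 0 := by
        by_contra h; exact hnk.1 ⟨hk, h⟩
      have hb : ev p.2 (x k) = 0 := by
        by_contra h; exact hnk.2 ⟨hk, h⟩
      rw [ha, hb, sub_zero]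
    rw [map_sum, map_sum, ← Finset.sum_sub_distrib, ← Finset.sum_subset hsub hzero]
    calc ‖∑ k ∈ A ∪ B, (ev p.2 (x k) - ev p.1 (x k))‖ ^ 2
        ≤ (∑ k ∈ A ∪ B, ‖ev p.2 (x k) - ev p.1 (x k)‖) ^ 2 :=
          pow_le_pow_left₀ (norm_nonneg _) (norm_sum_le _ _) 2
      _ ≤ (A ∪ B).card * ∑ k ∈ A ∪ B, ‖ev p.2 (x k) - ev p.1 (x k)‖ ^ 2 :=
          sq_sum_le_card_mul_sum_sq
      _ ≤ 2 * ∑ k ∈ A ∪ B, ‖ev p.2 (x k) - ev p.1 (x k)‖ ^ 2 := by
          apply mul_le_mul_of_nonneg_right _ (Finset.sum_nonneg fun _ _ => by positivity)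
          exact_mod_cast hABc
      _ ≤ 2 * ∑ k ∈ Finset.range K, ‖ev p.2 (x k) - ev p.1 (x k)‖ ^ 2 := by
          apply mul_le_mul_of_nonneg_left _ (by norm_num)
          exact Finset.sum_le_sum_of_subset_of_nonneg hsub (fun _ _ _ => by positivity)
  calc ∑ p ∈ F, ‖ev p.2 (∑ k ∈ Finset.range K, x k) - ev p.1 (∑ k ∈ Finset.range K, x k)‖ ^ 2
      ≤ ∑ p ∈ F, 2 * ∑ k ∈ Finset.range K, ‖ev p.2 (x k) - ev p.1 (x k)‖ ^ 2 :=
        Finset.sum_le_sum h1
    _ = 2 * ∑ k ∈ Finset.range K, ∑ p ∈ F, ‖ev p.2 (x k) - ev p.1 (x k)‖ ^ 2 := by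
        rw [← Finset.mul_sum, Finset.sum_comm]
    _ ≤ 2 * ∑ k ∈ Finset.range K, C ^ 2 := by
        apply mul_le_mul_of_nonneg_left _ (by norm_num)
        apply Finset.sum_le_sum
        intro k _
        exact (fam_le (x k) F hF).trans (pow_le_pow_left₀ (norm_nonneg _) (hC k) 2)
    _ = 2 * K * C ^ 2 := by
        rw [Finset.sum_const, Finset.card_range, nsmul_eq_mul]; ring

theorem taskC1 (𝕜 : Type) [RCLike 𝕜] : TaskC1 𝕜 := by
  intro f γ H1 g hg
  by_contra hcon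
  push Not at hcon
  have H := block f γ g hg H1 hcon
  choose nx X hlt hn hsupp hre using H
  let ns : ℕ → ℕ := fun k => Nat.rec 0 (fun _ m => nx m) k
  have hns : ∀ k, ns (k + 1) = nx (ns k) := fun k => rfl
  have hmono : StrictMono ns := by
    apply strictMono_nat_of_lt_succ
    intro k
    rw [hns]
    exact hlt _
  have hd' : ∀ k l, k < l → ∀ t, ¬ (ev t (X (ns k)) ≠ 0 ∧ ev t (X (ns l)) ≠ 0) := by
    intro k l hkl t ht
    have h1 := (hsupp _ t ht.1).2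
    have h2 := (hsupp _ t ht.2).1
    apply h1
    rw [← hns]
    exact (bn_mono γ (hmono.monotone (Nat.succ_le_of_lt hkl))).trans h2
  have hd : ∀ k l, k ≠ l → ∀ t, ¬ (ev t (X (ns k)) ≠ 0 ∧ ev t (X (ns l)) ≠ 0) := by
    intro k l hkl t ht
    rcases lt_or_gt_of_ne hkl with h | h
    · exact hd' k l h t ht
    · exact hd' l k h t ⟨ht.2, ht.1⟩
  have key : ∀ K : ℕ, (K : ℝ) * (g / 2) ≤ ‖f‖ * Real.sqrt (2 * K * 2 ^ 2) := by
    intro K
    have h1 := norm_sum_blocks (fun k => X (ns k)) hd K (C := 2) (fun k => hn _) (by norm_num)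
    have h2 : (K : ℝ) * (g / 2) ≤ RCLike.re (f (∑ k ∈ Finset.range K, X (ns k))) := by
      rw [map_sum, map_sum]
      calc (K : ℝ) * (g / 2) = ∑ k ∈ Finset.range K, g / 2 := by
            rw [Finset.sum_const, Finset.card_range, nsmul_eq_mul]
        _ ≤ _ := Finset.sum_le_sum fun k _ => hre _
    calc (K : ℝ) * (g / 2) ≤ RCLike.re (f (∑ k ∈ Finset.range K, X (ns k))) := h2
      _ ≤ ‖f (∑ k ∈ Finset.range K, X (ns k))‖ := RCLike.re_le_norm _
      _ ≤ ‖f‖ * ‖∑ k ∈ Finset.range K, X (ns k)‖ := f.le_opNorm _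
      _ ≤ _ := mul_le_mul_of_nonneg_left h1 (norm_nonneg _)
  obtain ⟨K, hK⟩ := exists_nat_gt (32 * ‖f‖ ^ 2 / g ^ 2)
  have hKpos : (0 : ℝ) < K := lt_of_le_of_lt (by positivity) hK
  have h3 := key K
  have h4 : ((K : ℝ) * (g / 2)) ^ 2 ≤ (‖f‖ * Real.sqrt (2 * K * 2 ^ 2)) ^ 2 :=
    pow_le_pow_left₀ (by positivity) h3 2
  rw [mul_pow ‖f‖, Real.sq_sqrt (by positivity)] at h4
  rw [div_lt_iff₀ (by positivity)] at hK
  have h5 : (K : ℝ) * (K * g ^ 2) ≤ K * (32 * ‖f‖ ^ 2) := by nlinarith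
  have h6 := le_of_mul_le_mul_left h5 hKpos
  linarith

end Pool.Agent.H973R3.JT
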