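import Pool.Agent.H585R4.JT.Stmts

set_option autoImplicit false
open Filter Topology Finset
open scoped ENNReal

namespace Pool.Agent.H973R3.JT

open Pool.Agent.H585R4.JT

/-- the nodes `s_k` -/
def sk (k : ℕ) : Nd := false :: List.replicate k true

theorem length_sk (k : ℕ) : (sk k).length = k + 1 := by simp [sk]

theorem sk_eq {k l : ℕ} {t : Nd} (h1 : sk k <:+ t) (h2 : sk l <:+ t) : k = l := by
  have key : ∀ k l : ℕ, sk k <:+ sk l → k = l := by
    intro k l h
    unfold sk at h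
    rw [List.suffix_cons_iff] at h
    rcases h with h | h
    · have := congrArg List.length h
      simpa using this
    · exfalso
      have h1 : false ∈ List.replicate l true := h.subset (by simp)
      have h2 := List.eq_of_mem_replicate h1
      exact absurd h2 (by decide)
  rcases suffix_total h1 h2 with h | h
  · exact key _ _ h
  · exact (key _ _ h).symm

open Classical in
/-- the position inside the cone of `s_k` -/
noncomputable def rho (k : ℕ) (t : Nd) : Nd :=
  if sk k <:+ t then t.take (t.length - (k + 1)) else []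

theorem rho_append (k : ℕ) (t : Nd) : rho k (t ++ sk k) = t := by
  unfold rho
  rw [if_pos (List.suffix_append _ _)]
  rw [List.length_append, length_sk, Nat.add_sub_cancel]
  exact List.take_left

theorem rho_of_not {k : ℕ} {t : Nd} (h : ¬ sk k <:+ t) : rho k t = [] := by
  unfold rho
  rw [if_neg h]

theorem rho_mono (k : ℕ) (a b : Nd) (hab : a <:+ b) : rho k a <:+ rho k b := by
  by_cases ha : sk k <:+ a
  · obtain ⟨a', rfl⟩ := ha
    obtain ⟨c, rfl⟩ := hab
    rw [← List.append_assoc, rho_append, rho_append]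
    exact List.suffix_append _ _
  · rw [rho_of_not ha]
    exact List.nil_suffix

theorem inn_rho (k : ℕ) {a b t : Nd} (hab : a <:+ b) (h : Inn t (rho k a, rho k b)) :
    Inn (t ++ sk k) (a, b) := by
  obtain ⟨h1, h2, h3⟩ := h
  simp only at h1 h2 h3
  by_cases hb : sk k <:+ b
  · obtain ⟨b', rfl⟩ := hb
    rw [rho_append] at h3
    rw [inn_iff hab]
    constructor
    · obtain ⟨c, rfl⟩ := h3
      exact ⟨c, by simp⟩
    · have hlt : (rho k a).length < t.length := by
        rcases lt_or_eq_of_le h1.length_le with h | h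
        · exact h
        · exact absurd (h1.eq_of_length h).symm h2
      by_cases ha : sk k <:+ a
      · obtain ⟨a', rfl⟩ := ha
        rw [rho_append] at hlt
        rw [List.length_append, List.length_append]
        omega
      · have h4 : a.length < (sk k).length := by
          by_contra hc
          push Not at hc
          exact ha (suffix_of_le (List.suffix_append _ _) hab hc)
        rw [List.length_append]
        omega
  · have ha : ¬ sk k <:+ a := fun h => hb (h.trans hab)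
    rw [rho_of_not hb, List.suffix_nil] at h3
    rw [rho_of_not ha] at h2
    exact absurd h3 h2

theorem append_mono (s a b : Nd) (hab : a <:+ b) : a ++ s <:+ b ++ s := by
  obtain ⟨c, rfl⟩ := hab
  exact ⟨c, by simp⟩

theorem inn_append (s : Nd) {a b u : Nd} (h : Inn u (a ++ s, b ++ s)) :
    ∃ t, u = t ++ s ∧ Inn t (a, b) := by
  obtain ⟨h1, h2, h3⟩ := h
  simp only at h1 h2 h3
  obtain ⟨c, hc⟩ := h1
  obtain ⟨d, hd⟩ := h3
  subst hc
  refine ⟨c ++ a, by simp, ⟨List.suffix_append _ _, ?_, ?_⟩⟩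
  · intro h
    apply h2
    simp only at h
    rw [← List.append_assoc, h]
  · refine ⟨d, ?_⟩
    have : (d ++ (c ++ a)) ++ s = b ++ s := by
      rw [← hd]; simp
    exact List.append_cancel_right this

variable {𝕜 : Type} [RCLike 𝕜]

theorem exJ (k : ℕ) : ∃ T : V 𝕜 →L[𝕜] V 𝕜, (∀ x t, ev t (T x) = ev (rho k t) x) ∧
    ∀ x, ‖T x‖ ≤ ‖x‖ := by
  obtain ⟨T, h1, h2⟩ := exists_comp (𝕜 := 𝕜) (rho k) (rho_mono k) (by
    intro a b a' b' hab hab' hd t ht
    exact hd _ ⟨inn_rho k hab ht.1, inn_rho k hab' ht.2⟩)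
  refine ⟨T, fun x t => ?_, h2⟩
  have h0 : rho k [] = [] := by
    apply rho_of_not
    intro h
    have := h.length_le
    rw [length_sk] at this
    simp at this
  rw [h1, h0, ev_nil, sub_zero]

theorem exQ' (k : ℕ) : ∃ T : V 𝕜 →L[𝕜] V 𝕜,
    (∀ x t, ev t (T x) = ev (t ++ sk k) x - ev (sk k) x) ∧ ∀ x, ‖T x‖ ≤ ‖x‖ := by
  obtain ⟨T, h1, h2⟩ := exists_comp (𝕜 := 𝕜) (fun t => t ++ sk k) (append_mono (sk k)) (by
    intro a b a' b' _ _ hd u hu
    obtain ⟨t, ht1, ht2⟩ := inn_append (sk k) hu.1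
    obtain ⟨t', ht1', ht2'⟩ := inn_append (sk k) hu.2
    have : t = t' := List.append_cancel_right (ht1.symm.trans ht1')
    subst this
    exact hd t ⟨ht2, ht2'⟩)
  exact ⟨T, fun x t => by simpa using h1 x t, h2⟩

/-- placement in the cone of `s_k` -/
noncomputable def Jk (k : ℕ) : V 𝕜 →L[𝕜] V 𝕜 := (exJ k).choose
/-- restriction to the cone of `s_k` -/
noncomputable def Qk (k : ℕ) : V 𝕜 →L[𝕜] V 𝕜 := (exQ' k).choose

theorem ev_Jk (k : ℕ) (x : V 𝕜) (t : Nd) : ev t (Jk k x) = ev (rho k t) x :=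
  (exJ k).choose_spec.1 x t
theorem Jk_le (k : ℕ) (x : V 𝕜) : ‖Jk k x‖ ≤ ‖x‖ := (exJ k).choose_spec.2 x
theorem ev_Qk (k : ℕ) (x : V 𝕜) (t : Nd) : ev t (Qk k x) = ev (t ++ sk k) x - ev (sk k) x :=
  (exQ' k).choose_spec.1 x t
theorem Qk_le (k : ℕ) (x : V 𝕜) : ‖Qk k x‖ ≤ ‖x‖ := (exQ' k).choose_spec.2 x

theorem ev_Jk_zero {k : ℕ} {t : Nd} (h : ¬ sk k <:+ t) (x : V 𝕜) : ev t (Jk k x) = 0 := by
  rw [ev_Jk, rho_of_not h, ev_nil]

theorem rho_sk (k : ℕ) : rho k (sk k) = [] := by
  have := rho_append k []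
  simpa using this

theorem Qk_Jk (k l : ℕ) (x : V 𝕜) : Qk k (Jk l x) = if k = l then x else 0 := by
  apply ext_ev
  intro t
  rw [ev_Qk]
  split_ifs with h
  · subst h
    rw [ev_Jk, ev_Jk, rho_append, rho_sk, ev_nil, sub_zero]
  · rw [ev_Jk_zero (fun h' => h (sk_eq (List.suffix_append _ _) h')),
      ev_Jk_zero (fun h' => h (sk_eq (List.suffix_refl _) h')), sub_zero, map_zero]

/-- upper estimate -/
theorem upper (y : ℕ → V 𝕜) (M : ℕ) :
    ‖∑ k ∈ Finset.range M, Jk k (y k)‖ ^ 2 ≤ ∑ k ∈ Finset.range M, ‖y k‖ ^ 2 := by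
  classical
  have h0 : 0 ≤ ∑ k ∈ Finset.range M, ‖y k‖ ^ 2 := Finset.sum_nonneg fun _ _ => by positivity
  have hmain : ‖∑ k ∈ Finset.range M, Jk k (y k)‖ ≤ Real.sqrt (∑ k ∈ Finset.range M, ‖y k‖ ^ 2) := by
    apply norm_le (Real.sqrt_nonneg _)
    intro F hF
    rw [Real.sq_sqrt h0]
    have h1 : ∀ p ∈ F, ‖ev p.2 (∑ k ∈ Finset.range M, Jk k (y k)) -
        ev p.1 (∑ k ∈ Finset.range M, Jk k (y k))‖ ^ 2 ≤
        ∑ k ∈ Finset.range M, ‖ev p.2 (Jk k (y k)) - ev p.1 (Jk k (y k))‖ ^ 2 := by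
      intro p hp
      have hab := hF.1 p hp
      rw [map_sum, map_sum, ← Finset.sum_sub_distrib]
      by_cases hex : ∃ k ∈ Finset.range M, sk k <:+ p.2
      · obtain ⟨k, hk, hks⟩ := hex
        rw [Finset.sum_eq_single_of_mem k hk]
        · exact Finset.single_le_sum (f := fun k => ‖ev p.2 (Jk k (y k)) - ev p.1 (Jk k (y k))‖ ^ 2)
            (fun _ _ => by positivity) hk
        · intro l _ hl
          rw [ev_Jk_zero (fun h => hl (sk_eq h hks)),
            ev_Jk_zero (fun h => hl (sk_eq (h.trans hab) hks)), sub_zero]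
      · push Not at hex
        rw [Finset.sum_eq_zero]
        · rw [norm_zero]
          have : 0 ≤ ∑ k ∈ Finset.range M, ‖ev p.2 (Jk k (y k)) - ev p.1 (Jk k (y k))‖ ^ 2 :=
            Finset.sum_nonneg fun _ _ => by positivity
          simpa using this
        · intro l hl
          rw [ev_Jk_zero (hex l hl), ev_Jk_zero (fun h => hex l hl (h.trans hab)), sub_zero]
    calc _ ≤ ∑ p ∈ F, ∑ k ∈ Finset.range M, ‖ev p.2 (Jk k (y k)) - ev p.1 (Jk k (y k))‖ ^ 2 :=
          Finset.sum_le_sum h1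
      _ = ∑ k ∈ Finset.range M, ∑ p ∈ F, ‖ev p.2 (Jk k (y k)) - ev p.1 (Jk k (y k))‖ ^ 2 :=
          Finset.sum_comm
      _ ≤ ∑ k ∈ Finset.range M, ‖y k‖ ^ 2 := by
          apply Finset.sum_le_sum
          intro k _
          exact (fam_le (Jk k (y k)) F hF).trans (pow_le_pow_left₀ (norm_nonneg _) (Jk_le k _) 2)
  calc _ ≤ (Real.sqrt (∑ k ∈ Finset.range M, ‖y k‖ ^ 2)) ^ 2 :=
        pow_le_pow_left₀ (norm_nonneg _) hmain 2
    _ = _ := Real.sq_sqrt h0

/-- lower estimate -/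
theorem lower (x : V 𝕜) (S : Finset ℕ) : ∑ k ∈ S, ‖Qk k x‖ ^ 2 ≤ ‖x‖ ^ 2 := by
  classical
  have h1 : ∀ k, ‖Qk k x‖ ≤ ‖RR (sk k) x‖ := by
    intro k
    have : Qk k x = Qk k (RR (sk k) x) := by
      apply ext_ev
      intro t
      rw [ev_Qk, ev_Qk, ev_RR, ev_RR, if_pos (List.suffix_append _ _), if_pos (List.suffix_refl _)]
      ring
    rw [this]
    exact Qk_le _ _
  have hinj : Set.InjOn sk S := by
    intro a _ b _ hab
    have := congrArg List.length hab
    rw [length_sk, length_sk] at this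
    omega
  calc ∑ k ∈ S, ‖Qk k x‖ ^ 2 ≤ ∑ k ∈ S, ‖RR (sk k) x‖ ^ 2 :=
        Finset.sum_le_sum fun k _ => pow_le_pow_left₀ (norm_nonneg _) (h1 k) 2
    _ = ∑ s ∈ S.image sk, ‖RR s x‖ ^ 2 := by
        rw [Finset.sum_image (fun a ha b hb h => hinj ha hb h)]
    _ ≤ ‖x‖ ^ 2 := by
        apply sum_RR_le
        intro s hs s' hs' hne hsuf
        obtain ⟨k, _, rfl⟩ := Finset.mem_image.1 hs
        obtain ⟨l, _, rfl⟩ := Finset.mem_image.1 hs'
        exact hne (by rw [sk_eq hsuf (List.suffix_refl _)])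

/-- the values of `J u` -/
noncomputable def Xf (u : ℕ → V 𝕜) (t : Nd) : 𝕜 := ∑ k ∈ Finset.range t.length, ev t (Jk k (u k))

theorem Xf_eq (u : ℕ → V 𝕜) (t : Nd) (M : ℕ) (h : t.length ≤ M) :
    Xf u t = ev t (∑ k ∈ Finset.range M, Jk k (u k)) := by
  rw [map_sum]
  unfold Xf
  apply Finset.sum_subset (Finset.range_mono h)
  intro k _ hk
  rw [Finset.mem_range, not_lt] at hk
  apply ev_Jk_zero
  intro hs
  have := hs.length_le
  rw [length_sk] at this
  omega

theorem two_toReal : (2 : ℝ≥0∞).toReal = ((2 : ℕ) : ℝ) := by simp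

theorem sum_sq_le (u : lp (fun _ : ℕ => V 𝕜) 2) (S : Finset ℕ) :
    ∑ k ∈ S, ‖u k‖ ^ 2 ≤ ‖u‖ ^ 2 := by
  have h := lp.sum_rpow_le_norm_rpow (p := 2) (by norm_num) u S
  rw [two_toReal] at h
  simpa only [Real.rpow_natCast] using h

theorem exJu (u : lp (fun _ : ℕ => V 𝕜) 2) : ∃ x : V 𝕜, (∀ t, ev t x = Xf (fun k => u k) t) ∧
    ‖x‖ ≤ ‖u‖ := by
  apply exists_mk _ _ (norm_nonneg u)
  · intro F hF
    set M := F.sup (fun p => max p.1.length p.2.length) with hM
    have h1 : ∑ p ∈ F, ‖Xf (fun k => u k) p.2 - Xf (fun k => u k) p.1‖ ^ 2 =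
        ∑ p ∈ F, ‖ev p.2 (∑ k ∈ Finset.range M, Jk k (u k)) -
          ev p.1 (∑ k ∈ Finset.range M, Jk k (u k))‖ ^ 2 := by
      apply Finset.sum_congr rfl
      intro p hp
      have h2 : max p.1.length p.2.length ≤ M :=
        Finset.le_sup (f := fun p : Nd × Nd => max p.1.length p.2.length) hp
      rw [Xf_eq _ p.2 M (le_trans (le_max_right _ _) h2),
        Xf_eq _ p.1 M (le_trans (le_max_left _ _) h2)]
    rw [h1]
    exact (fam_le _ F hF).trans ((upper (fun k => u k) M).trans (sum_sq_le u _))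
  · simp [Xf]

theorem taskD (𝕜 : Type) [RCLike 𝕜] : TaskD 𝕜 := by
  have hJ := exJu (𝕜 := 𝕜)
  choose J0 hJ1 hJ2 using hJ
  have hXadd : ∀ (u v : ℕ → V 𝕜) t, Xf (fun k => u k + v k) t = Xf u t + Xf v t := by
    intro u v t
    unfold Xf
    rw [← Finset.sum_add_distrib]
    apply Finset.sum_congr rfl
    intro k _
    rw [map_add, map_add]
  have hXsmul : ∀ (c : 𝕜) (u : ℕ → V 𝕜) t, Xf (fun k => c • u k) t = c * Xf u t := by
    intro c u t
    unfold Xf
    rw [Finset.mul_sum]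
    apply Finset.sum_congr rfl
    intro k _
    rw [map_smul, map_smul, smul_eq_mul]
  let J : lp (fun _ : ℕ => V 𝕜) 2 →ₗ[𝕜] V 𝕜 :=
    { toFun := J0
      map_add' := by
        intro u v
        apply ext_ev
        intro t
        rw [map_add, hJ1, hJ1, hJ1, ← hXadd]
        rfl
      map_smul' := by
        intro c u
        apply ext_ev
        intro t
        rw [RingHom.id_apply, map_smul, hJ1, hJ1, smul_eq_mul, ← hXsmul]
        rfl }
  have hmem : ∀ x : V 𝕜, Memℓp (fun k : ℕ => Qk k x) 2 := by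
    intro x
    apply memℓp_gen' (C := ‖x‖ ^ 2)
    intro s
    rw [two_toReal]
    simpa only [Real.rpow_natCast] using lower x s
  let Q : V 𝕜 →ₗ[𝕜] lp (fun _ : ℕ => V 𝕜) 2 :=
    { toFun := fun x => ⟨fun k => Qk k x, hmem x⟩
      map_add' := by
        intro x y
        apply lp.ext
        funext k
        exact map_add (Qk k) x y
      map_smul' := by
        intro c x
        apply lp.ext
        funext k
        exact map_smul (Qk k) c x }
  refine ⟨J.mkContinuous 1 (fun u => by rw [one_mul]; exact hJ2 u),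
    Q.mkContinuous 1 (fun x => ?_), ?_⟩
  · rw [one_mul]
    apply lp.norm_le_of_forall_sum_le (by norm_num) (norm_nonneg x)
    intro s
    rw [two_toReal]
    simp only [Real.rpow_natCast]
    exact lower x s
  · intro u
    apply lp.ext
    funext k
    show Qk k (J0 u) = u k
    apply ext_ev
    intro t
    set M := max ((t ++ sk k).length) (k + 1) with hM
    rw [ev_Qk, hJ1, hJ1, Xf_eq _ _ M (le_max_left _ _), Xf_eq _ _ M (by
      rw [length_sk]; exact le_max_right _ _), ← ev_Qk, map_sum]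
    have h1 : ∑ l ∈ Finset.range M, Qk k (Jk l (u l)) = u k := by
      rw [Finset.sum_eq_single_of_mem k (Finset.mem_range.2 (lt_of_lt_of_le (Nat.lt_succ_self k)
        (le_max_right _ _)))]
      · rw [Qk_Jk, if_pos rfl]
      · intro l _ hl
        rw [Qk_Jk, if_neg (fun h => hl h.symm)]
    rw [h1]

end Pool.Agent.H973R3.JT
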